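import Mathlib

/-!
# The depth of the shadow of a dead-end element can be as large as the word length

For every `n ≥ 1` we give an infinite, finitely generated (abelian) group `G`, a finite symmetric
generating set `S` and a dead-end element `x` with `|x| = n` and `sd(x) = n`.
So the bound `sd(x) ≤ ⌈|x| / 2⌉` fails for every length `n ≥ 2`, even for dead-end elements.

The group is `ℤ × ℤ/2n` and `S = {±(1,0), ±(1,1), ±(0,1)}`, `x = (0,n)`.
-/

namespace Pool.Agent.Results.MP_ea4c65_al.TrivialBoundSharp

section Definitions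

variable {G : Type*} [Group G]

/-- The Cayley graph of `G` with respect to `S`: two different elements `x`, `y` are joined by an
edge iff `y = x * s` or `x = y * s` for some `s ∈ S`. -/
def cayleyGraph (S : Set G) : SimpleGraph G where
  Adj x y := x ≠ y ∧ ((∃ s ∈ S, y = x * s) ∨ (∃ s ∈ S, x = y * s))
  symm := ⟨fun _ _ h => ⟨h.1.symm, h.2.symm⟩⟩
  loopless := ⟨fun _ h => h.1 rfl⟩

/-- The word length `|x| = d(e, x)`, the distance in the Cayley graph. -/
noncomputable def len (S : Set G) (x : G) : ℕ := (cayleyGraph S).dist 1 x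

/-- There is a strictly increasing path to infinity from `x`: an infinite path
`x = π 0, π 1, π 2, …` in the Cayley graph with `|π (i + 1)| > |π i|` for all `i`. -/
def HasIncreasingPath (S : Set G) (x : G) : Prop :=
  ∃ π : ℕ → G, π 0 = x ∧ (∀ i, (cayleyGraph S).Adj (π i) (π (i + 1))) ∧
    ∀ i, len S (π i) < len S (π (i + 1))

/-- The set `S(n)^{s∞}` of the elements of length `n` from which there is a strictly increasing
path to infinity. -/
def raySphere (S : Set G) (n : ℕ) : Set G := {y | len S y = n ∧ HasIncreasingPath S y}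

/-- `y` lies on some geodesic from `e` to `x`: there is a path from `e` to `x` of length `|x|`
passing through `y`. -/
def OnGeodesicTo (S : Set G) (x y : G) : Prop :=
  ∃ p : (cayleyGraph S).Walk 1 x, p.length = len S x ∧ y ∈ p.support

/-- The depth of the shadow of `x`: the least `k` (at most `|x|`) such that some
`y ∈ S(|x| - k)^{s∞}` lies on some geodesic from `e` to `x`. -/
noncomputable def shadowDepth (S : Set G) (x : G) : ℕ :=
  sInf {k : ℕ | k ≤ len S x ∧ ∃ y ∈ raySphere S (len S x - k), OnGeodesicTo S x y}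

/-- `x` is a dead-end element: no neighbour of `x` is farther from `e` than `x`. -/
def IsDeadEnd (S : Set G) (x : G) : Prop :=
  ∀ y : G, (cayleyGraph S).Adj x y → len S y ≤ len S x

end Definitions

section General

variable {G : Type*} [Group G] {S : Set G}

lemma adj_mul {x s : G} (hs : s ∈ S) (h1 : s ≠ 1) : (cayleyGraph S).Adj x (x * s) :=
  ⟨fun h => h1 (by simpa using h.symm), Or.inl ⟨s, hs, rfl⟩⟩

lemma reachable_mul (hS : Subgroup.closure S = ⊤) (x : G) :
    ∀ g : G, (cayleyGraph S).Reachable g (g * x) := by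
  have hx : x ∈ Subgroup.closure S := by rw [hS]; trivial
  induction hx using Subgroup.closure_induction with
  | mem s hs =>
    intro g
    by_cases h1 : s = 1
    · subst h1; simp
    · exact (adj_mul hs h1).reachable
  | one => intro g; simp
  | mul a b _ _ ha hb =>
    intro g
    have := (ha g).trans (hb (g * a))
    rwa [mul_assoc] at this
  | inv a _ ha =>
    intro g
    have := (ha (g * a⁻¹)).symm
    simpa using this

lemma connected (hS : Subgroup.closure S = ⊤) : (cayleyGraph S).Connected := by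
  have : Nonempty G := ⟨1⟩
  refine ⟨fun x y => ?_⟩
  have := reachable_mul hS (x⁻¹ * y) x
  simpa using this

lemma len_one : len S (1 : G) = 0 := by simp [len]

lemma len_mul_le (hS : Subgroup.closure S = ⊤) (x s : G) (hs : s ∈ S) :
    len S (x * s) ≤ len S x + 1 := by
  by_cases h1 : s = 1
  · subst h1; simp
  · have h := (connected hS).dist_triangle (u := 1) (v := x) (w := x * s)
    have h2 : (cayleyGraph S).dist x (x * s) = 1 :=
      SimpleGraph.dist_eq_one_iff_adj.mpr (adj_mul hs h1)
    unfold len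
    omega

end General

section Example

variable (m : ℕ)

/-- The group `ℤ × ℤ/m`, written multiplicatively. -/
abbrev Gr : Type := Multiplicative (ℤ × ZMod m)

/-- The generating set `{±(1,0), ±(1,1), ±(0,1)}`. -/
def gens : Finset (Gr m) :=
  {Multiplicative.ofAdd (1, 0), Multiplicative.ofAdd (-1, 0),
   Multiplicative.ofAdd (1, 1), Multiplicative.ofAdd (-1, -1),
   Multiplicative.ofAdd (0, 1), Multiplicative.ofAdd (0, -1)}

variable {m}

/-- the element `(p, q)` of the group -/
abbrev el (p : ℤ) (q : ZMod m) : Gr m := Multiplicative.ofAdd (p, q)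

lemma el_mul (p p' : ℤ) (q q' : ZMod m) : el p q * el p' q' = el (p + p') (q + q') := rfl

lemma mem_gens {s : Gr m} : s ∈ gens m ↔
    s = el 1 0 ∨ s = el (-1) 0 ∨ s = el 1 1 ∨ s = el (-1) (-1) ∨ s = el 0 1 ∨ s = el 0 (-1) := by
  simp [gens, el]

lemma closure_gens : Subgroup.closure (gens m : Set (Gr m)) = ⊤ := by
  rw [eq_top_iff]
  rintro x -
  obtain ⟨p, q⟩ := x
  obtain ⟨j, rfl⟩ := ZMod.intCast_surjective q
  have h1 : (el 1 0 : Gr m) ∈ Subgroup.closure (gens m : Set (Gr m)) :=
    Subgroup.subset_closure (by simp [mem_gens])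
  have h2 : (el 0 1 : Gr m) ∈ Subgroup.closure (gens m : Set (Gr m)) :=
    Subgroup.subset_closure (by simp [mem_gens])
  have h3 := Subgroup.mul_mem _ (Subgroup.zpow_mem _ h1 p) (Subgroup.zpow_mem _ h2 j)
  have h4 : (el 1 0 : Gr m) ^ p * (el 0 1 : Gr m) ^ j = el p (j : ZMod m) := by
    have e1 : (el 1 0 : Gr m) ^ p = el p 0 := by
      have : (el 1 0 : Gr m) ^ p = Multiplicative.ofAdd (p • ((1 : ℤ), (0 : ZMod m))) := rfl
      rw [this]; simp [el]
    have e2 : (el 0 1 : Gr m) ^ j = el 0 (j : ZMod m) := by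
      have : (el 0 1 : Gr m) ^ j = Multiplicative.ofAdd (j • ((0 : ℤ), (1 : ZMod m))) := rfl
      rw [this]; simp [el]
    rw [e1, e2, el_mul]; simp
  rw [h4] at h3
  exact h3

/-- each walk of length `L` from `u` to `v` lifts to a displacement in the plane -/
lemma walk_lift {u v : Gr m} (w : (cayleyGraph (gens m : Set (Gr m))).Walk u v) :
    ∃ Q : ℤ, (Q : ZMod m) = v.toAdd.2 - u.toAdd.2 ∧ |Q| ≤ w.length ∧
      |v.toAdd.1 - u.toAdd.1| ≤ w.length ∧ |v.toAdd.1 - u.toAdd.1 - Q| ≤ w.length := by
  induction w with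
  | nil => exact ⟨0, by simp⟩
  | @cons a b c h w ih =>
    obtain ⟨Q, hQ, h1, h2, h3⟩ := ih
    -- a step changes the coordinates by one of the six vectors
    have hstep : ∃ P R : ℤ, b.toAdd.1 - a.toAdd.1 = P ∧ b.toAdd.2 - a.toAdd.2 = (R : ZMod m) ∧
        |P| ≤ 1 ∧ |R| ≤ 1 ∧ |P - R| ≤ 1 := by
      rcases h.2 with ⟨s, hs, hb⟩ | ⟨s, hs, ha⟩
      · rw [Finset.mem_coe, mem_gens] at hs
        rcases hs with rfl | rfl | rfl | rfl | rfl | rfl
        · exact ⟨1, 0, by simp [hb, el]⟩
        · exact ⟨-1, 0, by simp [hb, el]⟩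
        · exact ⟨1, 1, by simp [hb, el]⟩
        · exact ⟨-1, -1, by simp [hb, el]⟩
        · exact ⟨0, 1, by simp [hb, el]⟩
        · exact ⟨0, -1, by simp [hb, el]⟩
      · rw [Finset.mem_coe, mem_gens] at hs
        rcases hs with rfl | rfl | rfl | rfl | rfl | rfl
        · exact ⟨-1, 0, by simp [ha, el]⟩
        · exact ⟨1, 0, by simp [ha, el]⟩
        · exact ⟨-1, -1, by simp [ha, el]⟩
        · exact ⟨1, 1, by simp [ha, el]⟩
        · exact ⟨0, -1, by simp [ha, el]⟩
        · exact ⟨0, 1, by simp [ha, el]⟩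
    obtain ⟨P, R, hP, hR, k1, k2, k3⟩ := hstep
    refine ⟨Q + R, ?_, ?_, ?_, ?_⟩
    · push_cast
      rw [hQ, ← hR]; ring
    · simp only [SimpleGraph.Walk.length_cons]
      push_cast
      rw [abs_le] at *
      constructor <;> linarith [h1.1, h1.2, k2.1, k2.2]
    · simp only [SimpleGraph.Walk.length_cons]
      push_cast
      rw [abs_le] at *
      constructor <;> linarith [h2.1, h2.2, k1.1, k1.2]
    · simp only [SimpleGraph.Walk.length_cons]
      push_cast
      rw [abs_le] at *
      constructor <;> linarith [h3.1, h3.2, k3.1, k3.2]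

/-- the word length in the example -/
noncomputable abbrev ln (x : Gr m) : ℕ := len (gens m : Set (Gr m)) x

lemma exists_walk (x y : Gr m) :
    ∃ w : (cayleyGraph (gens m : Set (Gr m))).Walk x y,
      w.length = (cayleyGraph (gens m : Set (Gr m))).dist x y :=
  (connected closure_gens).exists_walk_length_eq_dist x y

lemma abs_fst_le_ln (x : Gr m) : |x.toAdd.1| ≤ ln x := by
  obtain ⟨w, hw⟩ := exists_walk (1 : Gr m) x
  obtain ⟨Q, -, -, h, -⟩ := walk_lift w
  rw [hw] at h
  simpa [len] using h

lemma ln_pos (i j : ℕ) : ln (el (i : ℤ) (j : ZMod m)) ≤ max i j := by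
  induction i generalizing j with
  | zero =>
    induction j with
    | zero =>
      have : (el ((0 : ℕ) : ℤ) ((0 : ℕ) : ZMod m) : Gr m) = 1 := by
        simp only [el, Nat.cast_zero]; rfl
      rw [this, ln, len_one]; simp
    | succ j ih =>
      have := len_mul_le (closure_gens (m := m)) (el ((0 : ℕ) : ℤ) (j : ZMod m)) (el 0 1)
        (by simp [mem_gens])
      rw [el_mul] at this
      have e : (el ((0 : ℕ) + 0 : ℤ) ((j : ZMod m) + 1) : Gr m)
          = el ((0 : ℕ) : ℤ) ((j + 1 : ℕ) : ZMod m) := by simp [el]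
      rw [e] at this
      simp only [ln] at *
      omega
  | succ i ih =>
    rcases j with _ | j
    · have := len_mul_le (closure_gens (m := m)) (el (i : ℤ) ((0 : ℕ) : ZMod m)) (el 1 0)
        (by simp [mem_gens])
      rw [el_mul] at this
      have e : (el ((i : ℤ) + 1) (((0 : ℕ) : ZMod m) + 0) : Gr m)
          = el ((i + 1 : ℕ) : ℤ) ((0 : ℕ) : ZMod m) := by simp [el]
      rw [e] at this
      have := ih 0
      simp only [ln] at *
      omega
    · have := len_mul_le (closure_gens (m := m)) (el (i : ℤ) (j : ZMod m)) (el 1 1)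
        (by simp [mem_gens])
      rw [el_mul] at this
      have e : (el ((i : ℤ) + 1) ((j : ZMod m) + 1) : Gr m)
          = el ((i + 1 : ℕ) : ℤ) ((j + 1 : ℕ) : ZMod m) := by simp [el]
      rw [e] at this
      have := ih j
      simp only [ln] at *
      omega

lemma ln_neg (i j : ℕ) : ln (el (-(i : ℤ)) (-(j : ZMod m))) ≤ max i j := by
  induction i generalizing j with
  | zero =>
    induction j with
    | zero =>
      have : (el (-((0 : ℕ) : ℤ)) (-((0 : ℕ) : ZMod m)) : Gr m) = 1 := by
        simp only [el, Nat.cast_zero, neg_zero]; rfl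
      rw [this, ln, len_one]; simp
    | succ j ih =>
      have := len_mul_le (closure_gens (m := m)) (el (-((0 : ℕ) : ℤ)) (-(j : ZMod m))) (el 0 (-1))
        (by simp [mem_gens])
      rw [el_mul] at this
      have e : (el (-((0 : ℕ) : ℤ) + 0) (-(j : ZMod m) + -1) : Gr m)
          = el (-((0 : ℕ) : ℤ)) (-((j + 1 : ℕ) : ZMod m)) := by
        simp only [el, Nat.cast_add, Nat.cast_one, neg_add, add_zero]
      rw [e] at this
      simp only [ln] at *
      omega
  | succ i ih =>
    rcases j with _ | j
    · have := len_mul_le (closure_gens (m := m)) (el (-(i : ℤ)) (-((0 : ℕ) : ZMod m))) (el (-1) 0)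
        (by simp [mem_gens])
      rw [el_mul] at this
      have e : (el (-(i : ℤ) + -1) (-((0 : ℕ) : ZMod m) + 0) : Gr m)
          = el (-((i + 1 : ℕ) : ℤ)) (-((0 : ℕ) : ZMod m)) := by
        simp only [el, Nat.cast_add, Nat.cast_one, neg_add, add_zero]
      rw [e] at this
      have := ih 0
      simp only [ln] at *
      omega
    · have := len_mul_le (closure_gens (m := m)) (el (-(i : ℤ)) (-(j : ZMod m))) (el (-1) (-1))
        (by simp [mem_gens])
      rw [el_mul] at this
      have e : (el (-(i : ℤ) + -1) (-(j : ZMod m) + -1) : Gr m)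
          = el (-((i + 1 : ℕ) : ℤ)) (-((j + 1 : ℕ) : ZMod m)) := by
        simp only [el, Nat.cast_add, Nat.cast_one, neg_add]
      rw [e] at this
      have := ih j
      simp only [ln] at *
      omega

lemma ln_le_el [NeZero m] (p : ℤ) (q : ZMod m) : (ln (el p q) : ℤ) ≤ max |p| m := by
  rcases le_total 0 p with hp | hp
  · obtain ⟨i, rfl⟩ := Int.eq_ofNat_of_zero_le hp
    have h := ln_pos (m := m) i q.val
    have hq : ((q.val : ℕ) : ZMod m) = q := ZMod.natCast_zmod_val q
    rw [hq] at h
    have hv : q.val < m := ZMod.val_lt q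
    have habs : |((i : ℕ) : ℤ)| = (i : ℤ) := by simp
    rw [habs]
    have h2 : (ln (el (i : ℤ) q) : ℤ) ≤ max (i : ℤ) (q.val : ℤ) := by
      exact_mod_cast h
    have h3 : (q.val : ℤ) < m := by exact_mod_cast hv
    omega
  · obtain ⟨i, hi⟩ := Int.eq_ofNat_of_zero_le (neg_nonneg.mpr hp)
    have hp' : p = -(i : ℤ) := by omega
    subst hp'
    have h := ln_neg (m := m) i (-q).val
    have hq : -(((-q).val : ℕ) : ZMod m) = q := by rw [ZMod.natCast_zmod_val]; simp
    rw [hq] at h
    have hv : (-q).val < m := ZMod.val_lt (-q)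
    have habs : |(-(i : ℤ))| = (i : ℤ) := by simp
    rw [habs]
    have h2 : (ln (el (-(i : ℤ)) q) : ℤ) ≤ max (i : ℤ) ((-q).val : ℤ) := by
      exact_mod_cast h
    have h3 : ((-q).val : ℤ) < m := by exact_mod_cast hv
    omega

lemma ln_le [NeZero m] (x : Gr m) : (ln x : ℤ) ≤ max |x.toAdd.1| m :=
  ln_le_el x.toAdd.1 x.toAdd.2

/-- elements with a strictly increasing path to infinity have length `|p|` -/
lemma ln_of_ray [NeZero m] {y : Gr m} (h : HasIncreasingPath (gens m : Set (Gr m)) y) :
    (ln y : ℤ) = |y.toAdd.1| := by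
  obtain ⟨π, h0, hadj, hinc⟩ := h
  have hlen : ∀ i : ℕ, ln y + i ≤ ln (π i) := by
    intro i
    induction i with
    | zero => simp [h0]
    | succ i ih =>
      have := hinc i
      simp only [ln] at *
      omega
  have hfst : ∀ i : ℕ, |(π i).toAdd.1| ≤ |y.toAdd.1| + i := by
    intro i
    induction i with
    | zero => simp [h0]
    | succ i ih =>
      obtain ⟨Q, -, -, h2, -⟩ := walk_lift ((hadj i).toWalk)
      simp only [SimpleGraph.Walk.length_cons, SimpleGraph.Walk.length_nil,
        SimpleGraph.Adj.toWalk] at h2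
      push_cast at h2 ⊢
      have h3 := abs_le.mp h2
      have h4 := abs_le.mp ih
      rw [abs_le]
      constructor <;> linarith [h3.1, h3.2, h4.1, h4.2]
  have h1 := hlen m
  have h2 := hfst m
  have h3 := ln_le (π m)
  have h4 := abs_fst_le_ln y
  have h5 : (ln y : ℤ) + m ≤ ln (π m) := by exact_mod_cast h1
  have h6 := abs_nonneg (y.toAdd.1)
  rcases le_total |(π m).toAdd.1| (m : ℤ) with h7 | h7
  · rw [max_eq_right h7] at h3
    omega
  · rw [max_eq_left h7] at h3
    omega

lemma ln_el_int (i : ℕ) : ln (el (i : ℤ) (0 : ZMod m)) = i := by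
  have h1 := ln_pos (m := m) i 0
  have h2 := abs_fst_le_ln (el (i : ℤ) (0 : ZMod m))
  simp only [Nat.cast_zero] at h1
  have h3 : |(el (i : ℤ) (0 : ZMod m)).toAdd.1| = (i : ℤ) := by
    change |(i : ℤ)| = i
    simp
  rw [h3] at h2
  have h4 : i ≤ ln (el (i : ℤ) (0 : ZMod m)) := by exact_mod_cast h2
  omega

lemma ray_one : HasIncreasingPath (gens m : Set (Gr m)) (1 : Gr m) := by
  refine ⟨fun i => el (i : ℤ) 0, ?_, ?_, ?_⟩
  · simp only [el, Nat.cast_zero]; rfl
  · intro i
    have h := adj_mul (S := (gens m : Set (Gr m))) (x := el (i : ℤ) (0 : ZMod m))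
      (s := el 1 0) (by simp [mem_gens]) (by
        intro h
        have := congrArg (fun z : Gr m => z.toAdd.1) h
        simp [el] at this)
    rw [el_mul] at h
    simpa [el] using h
  · intro i
    have h1 := ln_el_int (m := m) i
    have h2 := ln_el_int (m := m) (i + 1)
    simp only [ln] at h1 h2
    rw [h1, h2]
    omega

end Example

lemma key (n : ℕ) (hn : 1 ≤ n) :
    len (gens (2 * n) : Set (Gr (2 * n))) (el 0 (n : ZMod (2 * n))) = n ∧
    shadowDepth (gens (2 * n) : Set (Gr (2 * n))) (el 0 (n : ZMod (2 * n))) = n := by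
  set m := 2 * n with hm
  have : NeZero m := ⟨by omega⟩
  set x : Gr m := el 0 (n : ZMod m) with hx
  -- congruence lemma
  have hcong : ∀ R : ℤ, (R : ZMod m) = (n : ZMod m) → |R| ≤ n → R = n ∨ R = -n := by
    intro R hR hle
    have h1 : ((R : ℤ) : ZMod m) = ((n : ℤ) : ZMod m) := by simpa using hR
    rw [ZMod.intCast_eq_intCast_iff_dvd_sub] at h1
    obtain ⟨c, hc⟩ := h1
    have h2 := abs_le.mp hle
    have hmz : (m : ℤ) = 2 * n := by rw [hm]; push_cast; ring
    have hc0 : c = 0 ∨ c = 1 := by
      by_contra hne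
      have h3 : c < 0 ∨ 1 < c := by omega
      rcases h3 with hlt | hgt
      · have : (m : ℤ) * c ≤ -(m : ℤ) := by nlinarith
        omega
      · have : 2 * (m : ℤ) ≤ (m : ℤ) * c := by nlinarith
        omega
    rcases hc0 with hc0 | hc0
    · rw [hc0] at hc
      left
      omega
    · rw [hc0] at hc
      right
      omega
  -- the length of x
  have hlen : len (gens m : Set (Gr m)) x = n := by
    apply le_antisymm
    · have := ln_pos (m := m) 0 n
      simpa [ln, hx] using this
    · by_contra hlt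
      push Not at hlt
      obtain ⟨w, hw⟩ := exists_walk (1 : Gr m) x
      obtain ⟨Q, hQ, h1, -, -⟩ := walk_lift w
      rw [hw] at h1
      have hQ' : (Q : ZMod m) = (n : ZMod m) := by
        rw [hQ, hx]; simp [el]
      have h2 : |Q| < (n : ℤ) := by
        refine lt_of_le_of_lt h1 ?_
        exact_mod_cast hlt
      rcases hcong Q hQ' h2.le with h3 | h3
      · rw [h3] at h2
        simp at h2
      · rw [h3] at h2
        simp at h2
  refine ⟨hlen, ?_⟩
  -- elements on a geodesic to x with an increasing path are trivial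
  have hgeo : ∀ y : Gr m, HasIncreasingPath (gens m : Set (Gr m)) y →
      OnGeodesicTo (gens m : Set (Gr m)) x y → len (gens m : Set (Gr m)) y = 0 := by
    intro y hy hon
    obtain ⟨p, hp, hsup⟩ := hon
    rw [hlen] at hp
    -- split
    obtain ⟨q, r, hqr⟩ := SimpleGraph.Walk.mem_support_iff_exists_append.mp hsup
    obtain ⟨w, hw⟩ := exists_walk (1 : Gr m) y
    have hw' : w.length = ln y := hw
    have hbig : n ≤ (w.append r).length := by
      have := SimpleGraph.dist_le (w.append r)
      change len (gens m : Set (Gr m)) x ≤ _ at this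
      rw [hlen] at this
      exact this
    have hlens : q.length + r.length = n := by
      rw [← hp, hqr, SimpleGraph.Walk.length_append]
    have hqw : w.length ≤ q.length := by
      rw [hw]
      exact SimpleGraph.dist_le q
    rw [SimpleGraph.Walk.length_append] at hbig
    have hr : (w.length : ℤ) + r.length = n := by
      have : w.length + r.length = n := by omega
      exact_mod_cast this
    obtain ⟨Q1, hQ1, a1, a2, a3⟩ := walk_lift w
    obtain ⟨Q2, hQ2, b1, b2, b3⟩ := walk_lift r
    have hray := ln_of_ray hy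
    rw [hw'] at a1 a2 a3 hr
    have hone : (1 : Gr m).toAdd = ((0 : ℤ), (0 : ZMod m)) := rfl
    have hxx : x.toAdd = ((0 : ℤ), (n : ZMod m)) := rfl
    rw [hone] at hQ1 a2 a3
    rw [hxx] at hQ2 b2 b3
    simp only [sub_zero, zero_sub] at hQ1 a2 a3 b2 b3
    have hsum : ((Q1 + Q2 : ℤ) : ZMod m) = (n : ZMod m) := by
      push_cast
      rw [hQ1, hQ2]
      simp
    have hQ : Q1 + Q2 = n ∨ Q1 + Q2 = -n := by
      apply hcong _ hsum
      refine le_trans (abs_add_le _ _) ?_
      linarith
    rw [hray] at a1 a2 a3 hr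
    have hz : y.toAdd.1 = 0 := by
      have c1 := abs_le.mp a1
      have c3 := abs_le.mp a3
      have d1 := abs_le.mp b1
      have d3 := abs_le.mp b3
      rcases hQ with hQ | hQ <;> rcases abs_cases (y.toAdd.1) with h | h <;> omega
    have : (ln y : ℤ) = 0 := by rw [hray, hz]; simp
    exact_mod_cast this
  -- conclude
  have hset : {k : ℕ | k ≤ len (gens m : Set (Gr m)) x ∧
      ∃ y ∈ raySphere (gens m : Set (Gr m)) (len (gens m : Set (Gr m)) x - k),
        OnGeodesicTo (gens m : Set (Gr m)) x y} = {n} := by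
    ext k
    simp only [Set.mem_ofPred_eq, Set.mem_singleton_iff, hlen]
    constructor
    · rintro ⟨hk, y, ⟨hy1, hy2⟩, hy3⟩
      have := hgeo y hy2 hy3
      omega
    · rintro rfl
      refine ⟨le_rfl, 1, ⟨by simp [len_one], ray_one⟩, ?_⟩
      obtain ⟨w, hw⟩ := exists_walk (1 : Gr m) x
      exact ⟨w, hw, w.start_mem_support⟩
  unfold shadowDepth
  rw [hset]
  simp

/-- the element `(0, n)` of `ℤ × ℤ/2n` is a dead-end element -/
lemma deadEnd (n : ℕ) (hn : 1 ≤ n) :
    IsDeadEnd (gens (2 * n) : Set (Gr (2 * n))) (el 0 (n : ZMod (2 * n))) := by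
  obtain ⟨hlen, -⟩ := key n hn
  set m := 2 * n with hm
  obtain ⟨k, rfl⟩ : ∃ k, n = k + 1 := ⟨n - 1, by omega⟩
  have h0 : ((k : ZMod m) + 1) + ((k : ZMod m) + 1) = 0 := by
    have : ((m : ℕ) : ZMod m) = 0 := ZMod.natCast_self m
    rw [hm] at this
    push_cast at this
    linear_combination this
  have e1 : ((k + 1 : ℕ) : ZMod m) = -((k + 1 : ℕ) : ZMod m) := by
    push_cast
    linear_combination h0
  have e2 : ((k + 1 : ℕ) : ZMod m) + 1 = -(k : ZMod m) := by
    push_cast
    linear_combination h0
  have e3 : ((k + 1 : ℕ) : ZMod m) + -1 = (k : ZMod m) := by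
    push_cast
    ring
  -- the six neighbours
  have key6 : ∀ s : Gr m, s ∈ gens m → ln (el 0 ((k + 1 : ℕ) : ZMod m) * s) ≤ k + 1 := by
    intro s hs
    rw [mem_gens] at hs
    rcases hs with rfl | rfl | rfl | rfl | rfl | rfl
    · rw [el_mul]
      have h := ln_pos (m := m) 1 (k + 1)
      simp only [Nat.cast_one, zero_add, add_zero] at h ⊢
      exact h.trans (by omega)
    · rw [el_mul]
      have h := ln_neg (m := m) 1 (k + 1)
      rw [← e1] at h
      simp only [Nat.cast_one, zero_add, add_zero] at h ⊢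
      exact h.trans (by omega)
    · rw [el_mul, e2]
      have h := ln_neg (m := m) 0 k
      have h2 := len_mul_le (closure_gens (m := m)) (el (-((0 : ℕ) : ℤ)) (-(k : ZMod m)))
        (el 1 0) (by simp [mem_gens])
      rw [el_mul] at h2
      simp only [ln, Nat.cast_zero, neg_zero, zero_add, add_zero] at h h2 ⊢
      omega
    · rw [el_mul, e3]
      have h := ln_pos (m := m) 0 k
      have h2 := len_mul_le (closure_gens (m := m)) (el ((0 : ℕ) : ℤ) (k : ZMod m))
        (el (-1) 0) (by simp [mem_gens])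
      rw [el_mul] at h2
      simp only [ln, Nat.cast_zero, zero_add, add_zero] at h h2 ⊢
      omega
    · rw [el_mul, e2]
      have h := ln_neg (m := m) 0 k
      simp only [ln, Nat.cast_zero, neg_zero, zero_add, add_zero] at h ⊢
      omega
    · rw [el_mul, e3]
      have h := ln_pos (m := m) 0 k
      simp only [ln, Nat.cast_zero, zero_add, add_zero] at h ⊢
      omega
  intro y hy
  rw [hlen]
  rcases hy.2 with ⟨s, hs, rfl⟩ | ⟨s, hs, hx⟩
  · exact key6 s (Finset.mem_coe.1 hs)
  · have hy' : y = el 0 ((k + 1 : ℕ) : ZMod m) * s⁻¹ := by rw [hx]; group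
    rw [hy']
    apply key6
    rw [Finset.mem_coe, mem_gens] at hs
    rw [mem_gens]
    rcases hs with rfl | rfl | rfl | rfl | rfl | rfl
    · right; left; simp [el, ← ofAdd_neg]
    · left; simp [el, ← ofAdd_neg]
    · right; right; right; left; simp [el, ← ofAdd_neg]
    · right; right; left; simp [el, ← ofAdd_neg]
    · right; right; right; right; right; simp [el, ← ofAdd_neg]
    · right; right; right; right; left; simp [el, ← ofAdd_neg]

/-- **The trivial bound `sd(x) ≤ |x|` is attained for every length, even by dead-end elements.** For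
every `n ≥ 1` there are an infinite finitely generated abelian group `G`, a finite symmetric
generating set `S` not containing the identity and a dead-end element `x ∈ G` with `|x| = n` and
`sd(x) = n`; in particular `sd(x) > ⌈|x| / 2⌉` as soon as `n ≥ 2`. -/
theorem result : ∀ n : ℕ, 1 ≤ n → ∃ (G : Type) (_ : CommGroup G) (S : Finset G) (x : G),
    Infinite G ∧ (1 : G) ∉ S ∧ (∀ s ∈ S, s⁻¹ ∈ S) ∧ Subgroup.closure (S : Set G) = ⊤ ∧
    IsDeadEnd (S : Set G) x ∧ len (S : Set G) x = n ∧ shadowDepth (S : Set G) x = n ∧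
    (2 ≤ n → ⌈(len (S : Set G) x : ℚ) / 2⌉ < (shadowDepth (S : Set G) x : ℤ)) := by
  intro n hn1
  obtain ⟨h1, h2⟩ := key n hn1
  refine ⟨Gr (2 * n), inferInstance, gens (2 * n), el 0 (n : ZMod (2 * n)),
    ?_, ?_, ?_, closure_gens, deadEnd n hn1, h1, h2, ?_⟩
  · exact inferInstanceAs (Infinite (ℤ × ZMod (2 * n)))
  · intro h
    rw [mem_gens] at h
    have hne : (1 : ZMod (2 * n)) ≠ 0 := by
      have : Fact (1 < 2 * n) := ⟨by omega⟩
      exact one_ne_zero
    rcases h with h | h | h | h | h | h <;>
      · have e1 := congrArg (fun z : Gr (2 * n) => z.toAdd.1) h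
        have e2 := congrArg (fun z : Gr (2 * n) => z.toAdd.2) h
        first
          | exact hne e2.symm
          | exact hne (by simpa [el] using e2)
          | simp [el] at e1 e2
  · intro s hs
    rw [mem_gens] at hs ⊢
    rcases hs with rfl | rfl | rfl | rfl | rfl | rfl
    · right; left; simp [el, ← ofAdd_neg]
    · left; simp [el, ← ofAdd_neg]
    · right; right; right; left; simp [el, ← ofAdd_neg]
    · right; right; left; simp [el, ← ofAdd_neg]
    · right; right; right; right; right; simp [el, ← ofAdd_neg]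
    · right; right; right; right; left; simp [el, ← ofAdd_neg]
  · intro hn
    rw [h1, h2]
    have h3 : ⌈(n : ℚ) / 2⌉ ≤ (n : ℤ) - 1 := by
      rw [Int.ceil_le]
      push_cast
      have : (2 : ℚ) ≤ n := by exact_mod_cast hn
      linarith
    omega

end Pool.Agent.Results.MP_ea4c65_al.TrivialBoundSharp
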